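import Pool.Agent.Work.MP_8b6acb_cap.ABS

/-!
# The entropy inequality with slack
-/

namespace R5

open Finset

/-- The entropy inequality with slack, before the last estimate. -/
theorem abs_slack0 {ι : Type} (K : Finset ι) (y e u : ι → ℝ) (l : ℕ) (s0 : ℝ) (hl : 1 ≤ l)
    (hye : ∀ k ∈ K, 0 ≤ e k ∧ e k ≤ y k) (hu : ∀ k ∈ K, 0 < u k) (hZ : 0 < ∑ k ∈ K, y k)
    (hq : ∑ k ∈ K, (y k + e k / (l : ℝ)) ^ 2 / u k + s0 ≤
      (∑ k ∈ K, (y k + e k / (l : ℝ))) ^ 2) :
    ∑ k ∈ K, y k * Real.log (y k / (u k * ∑ k ∈ K, y k)) ≤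
      -((∑ k ∈ K, y k) * s0 / ((∑ k ∈ K, y k) + (∑ k ∈ K, e k) / (l : ℝ)) ^ 2) +
      2 * ((∑ k ∈ K, y k) * (Real.log (((∑ k ∈ K, y k) + (∑ k ∈ K, e k) / (l : ℝ)) /
        (∑ k ∈ K, y k)) - Real.log (1 + 1 / (l : ℝ))) +
        ((∑ k ∈ K, y k) - (∑ k ∈ K, e k)) * Real.log (1 + 1 / (l : ℝ))) := by
  classical
  set L : ℝ := (l : ℝ) with hL
  have hL1 : (1 : ℝ) ≤ L := by rw [hL]; exact_mod_cast hl
  have hL0 : (0 : ℝ) < L := by linarith
  set Z := ∑ k ∈ K, y k with hZdef
  set E := ∑ k ∈ K, e k with hEdef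
  set Q := ∑ k ∈ K, (y k + e k / L) with hQdef
  have hQ : Q = Z + E / L := by
    rw [hQdef, sum_add_distrib, ← sum_div]
  have hE0 : 0 ≤ E := sum_nonneg fun k hk => (hye k hk).1
  have hEZ : E ≤ Z := sum_le_sum fun k hk => (hye k hk).2
  have hQ0 : 0 < Q := by rw [hQ]; positivity
  -- termwise inequality
  have term : ∀ k ∈ K, y k * Real.log (y k / (u k * Z)) ≤
      (Z * ((y k + e k / L) ^ 2 / u k) / Q ^ 2 - y k) +
        2 * (y k * (Real.log (Q / Z) - Real.log (1 + 1 / L)) +
          (y k - e k) * Real.log (1 + 1 / L)) := by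
    intro k hk
    obtain ⟨he0, hey⟩ := hye k hk
    have huk := hu k hk
    rcases (le_trans he0 hey).eq_or_lt with hy0 | hy0
    · have hek : e k = 0 := le_antisymm (by rw [hy0]; exact hey) he0
      rw [← hy0, hek]
      simp
    · set q := y k + e k / L with hqk
      have hq0 : 0 < q := by positivity
      have hlog1 : Real.log (Z * (q ^ 2 / u k) / Q ^ 2 / y k) ≤ Z * (q ^ 2 / u k) / Q ^ 2 / y k - 1 :=
        Real.log_le_sub_one_of_pos (by positivity)
      have h1 : y k * Real.log (Z * (q ^ 2 / u k) / Q ^ 2 / y k) ≤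
          Z * (q ^ 2 / u k) / Q ^ 2 - y k := by
        have := mul_le_mul_of_nonneg_left hlog1 hy0.le
        have e3 : y k * (Z * (q ^ 2 / u k) / Q ^ 2 / y k - 1) = Z * (q ^ 2 / u k) / Q ^ 2 - y k := by
          field_simp
        rw [e3] at this
        exact this
      have h2 : Real.log (Z * (q ^ 2 / u k) / Q ^ 2 / y k) =
          Real.log Z + 2 * Real.log q - Real.log (u k) - 2 * Real.log Q - Real.log (y k) := by
        rw [Real.log_div (by positivity) hy0.ne', Real.log_div (by positivity) (by positivity),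
          Real.log_mul hZ.ne' (by positivity), Real.log_div (by positivity) huk.ne',
          Real.log_pow, Real.log_pow]
        push_cast
        ring
      have h3 : Real.log (y k / (u k * Z)) = Real.log (y k) - Real.log (u k) - Real.log Z := by
        rw [Real.log_div hy0.ne' (by positivity), Real.log_mul huk.ne' hZ.ne']
        ring
      have h4 : Real.log (Q / Z) = Real.log Q - Real.log Z := Real.log_div hQ0.ne' hZ.ne'
      -- the bound for log (q / y)
      set ν := (y k - e k) / y k with hν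
      have hν0 : 0 ≤ ν := div_nonneg (by linarith) hy0.le
      have hν1 : ν ≤ 1 := by rw [hν, div_le_one hy0]; linarith
      have h5 := abs_conc L ν hL1 hν0 hν1
      have hqy : q / y k = (1 + 1 / L) * (1 - ν / (L + 1)) := by
        rw [hqk, hν]
        field_simp
        ring
      have hpos : 0 < 1 - ν / (L + 1) := by
        have : ν / (L + 1) < 1 := by
          rw [div_lt_one (by linarith)]
          linarith
        linarith
      have h6 : Real.log q - Real.log (y k) = Real.log (1 + 1 / L) + Real.log (1 - ν / (L + 1)) := by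
        rw [← Real.log_div hq0.ne' hy0.ne', hqy, Real.log_mul (by positivity) hpos.ne']
      have h7 : y k * ν = y k - e k := by
        rw [hν]; field_simp
      have h8 : y k * (-Real.log (1 - ν / (L + 1))) ≤ (y k - e k) * Real.log (1 + 1 / L) := by
        have := mul_le_mul_of_nonneg_left h5 hy0.le
        rw [← mul_assoc, h7] at this
        exact this
      rw [h3, h4]
      rw [h2] at h1
      have h9 : Real.log q = Real.log (y k) + Real.log (1 + 1 / L) + Real.log (1 - ν / (L + 1)) := by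
        linarith
      rw [h9] at h1
      nlinarith [h1, h8]
  have hsum := sum_le_sum term
  refine hsum.trans ?_
  rw [sum_add_distrib, sum_sub_distrib, ← mul_sum, sum_add_distrib, ← sum_mul, ← sum_mul,
    ← sum_div, ← mul_sum, sum_sub_distrib]
  have hA : Z * (∑ k ∈ K, (y k + e k / L) ^ 2 / u k) / Q ^ 2 - Z ≤ -(Z * s0 / Q ^ 2) := by
    have h : Z * (∑ k ∈ K, (y k + e k / L) ^ 2 / u k) / Q ^ 2 + Z * s0 / Q ^ 2 ≤ Z := by
      rw [← add_div, div_le_iff₀ (by positivity), ← mul_add]
      exact mul_le_mul_of_nonneg_left hq hZ.le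
    linarith
  rw [← hQ]
  linarith [hA]

/-- The entropy inequality with slack, both forms. -/
theorem abs_slack {ι : Type} (K : Finset ι) (y e u : ι → ℝ) (l : ℕ) (s0 : ℝ) (hl : 1 ≤ l)
    (hye : ∀ k ∈ K, 0 ≤ e k ∧ e k ≤ y k) (hu : ∀ k ∈ K, 0 < u k) (hZ : 0 < ∑ k ∈ K, y k)
    (hq : ∑ k ∈ K, (y k + e k / (l : ℝ)) ^ 2 / u k + s0 ≤
      (∑ k ∈ K, (y k + e k / (l : ℝ))) ^ 2) :
    ∑ k ∈ K, y k * Real.log (y k / (u k * ∑ k ∈ K, y k)) ≤
      ((∑ k ∈ K, y k) - ∑ k ∈ K, e k) / (l : ℝ) ^ 2 -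
        (∑ k ∈ K, y k) * s0 / ((∑ k ∈ K, y k) + (∑ k ∈ K, e k) / (l : ℝ)) ^ 2 ∧
    ∑ k ∈ K, y k * Real.log (y k / (u k * ∑ k ∈ K, y k)) ≤
      (∑ k ∈ K, e k) / (l : ℝ) ^ 2 -
        (∑ k ∈ K, y k) * s0 / ((∑ k ∈ K, y k) + (∑ k ∈ K, e k) / (l : ℝ)) ^ 2 := by
  have h0 := abs_slack0 K y e u l s0 hl hye hu hZ hq
  set L : ℝ := (l : ℝ) with hL
  have hL1 : (1 : ℝ) ≤ L := by rw [hL]; exact_mod_cast hl
  have hL0 : (0 : ℝ) < L := by linarith
  set Z := ∑ k ∈ K, y k with hZdef
  set E := ∑ k ∈ K, e k with hEdef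
  set P := Z * s0 / (Z + E / L) ^ 2 with hP
  have hE0 : 0 ≤ E := sum_nonneg fun k hk => (hye k hk).1
  have hEZ : E ≤ Z := sum_le_sum fun k hk => (hye k hk).2
  have hQ0 : 0 < Z + E / L := by positivity
  constructor
  · set N := (Z - E) / Z with hN
    have hN0 : 0 ≤ N := div_nonneg (by linarith) hZ.le
    have hN1 : N ≤ 1 := by rw [hN, div_le_one hZ]; linarith
    have hNpos : 0 < 1 - N / (L + 1) := by
      have : N / (L + 1) < 1 := by
        rw [div_lt_one (by linarith)]
        linarith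
      linarith
    have hQZ : (Z + E / L) / Z = (1 + 1 / L) * (1 - N / (L + 1)) := by
      rw [hN]
      field_simp
      ring
    have h10 : Real.log ((Z + E / L) / Z) ≤ Real.log (1 + 1 / L) - N / (L + 1) := by
      rw [hQZ, Real.log_mul (by positivity) hNpos.ne']
      have := Real.log_le_sub_one_of_pos hNpos
      linarith
    have hZN : Z * N = Z - E := by rw [hN]; field_simp
    have h11 : Z * (Real.log ((Z + E / L) / Z) - Real.log (1 + 1 / L)) ≤ -(Z - E) / (L + 1) := by
      have := mul_le_mul_of_nonneg_left (by linarith [h10] :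
        Real.log ((Z + E / L) / Z) - Real.log (1 + 1 / L) ≤ -(N / (L + 1))) hZ.le
      have e4 : Z * (-(N / (L + 1))) = -(Z - E) / (L + 1) := by
        rw [← hZN]; ring
      rw [e4] at this
      exact this
    have h12 := mul_le_mul_of_nonneg_left (abs_const L hL1) (by linarith : 0 ≤ Z - E)
    have e5 : (Z - E) * (1 / (2 * L ^ 2)) = (Z - E) / L ^ 2 / 2 := by
      field_simp
    rw [e5] at h12
    have e6 : -(Z - E) / (L + 1) = -((Z - E) * (1 / (L + 1))) := by ring
    rw [e6] at h11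
    nlinarith [h0, h11, h12]
  · have h1 : Real.log ((Z + E / L) / Z) ≤ E / L / Z := by
      have e1 : (Z + E / L) / Z = 1 + E / L / Z := by field_simp
      have h2 : 0 < 1 + E / L / Z := by positivity
      rw [e1]
      have := Real.log_le_sub_one_of_pos h2
      linarith
    have h2 : Z * Real.log ((Z + E / L) / Z) ≤ E / L := by
      have := mul_le_mul_of_nonneg_left h1 hZ.le
      have e1 : Z * (E / L / Z) = E / L := by field_simp
      rw [e1] at this
      exact this
    have h3 : 1 / L - 1 / (2 * L ^ 2) ≤ Real.log (1 + 1 / L) := by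
      have h4 := Real.le_log_one_add_of_nonneg (x := 1 / L) (by positivity)
      refine le_trans ?_ h4
      rw [le_div_iff₀ (by positivity)]
      have e2 : (1 / L - 1 / (2 * L ^ 2)) * (1 / L + 2) = 2 * (1 / L) - 1 / (2 * L ^ 3) := by
        field_simp
        ring
      rw [e2]
      have : (0 : ℝ) < 1 / (2 * L ^ 3) := by positivity
      linarith
    have h4 := mul_le_mul_of_nonneg_left h3 hE0
    have e3 : E * (1 / L - 1 / (2 * L ^ 2)) = E / L - E / L ^ 2 / 2 := by
      field_simp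
    rw [e3] at h4
    nlinarith [h0, h2, h4]

end R5
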