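import Pool.Agent.Work.MP_8b6acb_cost_helper3.QPIS
import Pool.Agent.Work.MP_8b6acb_cost_helper3.ABSS
import Pool.Agent.Work.MP_8b6acb_cap.COSTB
import Pool.Agent.Work.MP_8b6acb_cap.AWID
import Pool.Agent.Work.MP_8b6acb_cap.GMASS
import Pool.Agent.Work.MP_8b6acb_fq.Defs

/-!
# The bound for `COST1`, with the slack of the cut vertices

`(l + 1) COST1 ≤ (NE + NE*) / l ^ 2 - l / (l + 1) * SL` and the same with `NV`.
-/

namespace R5

namespace C1

open Finset COSTB

variable {α : Type} [DecidableEq α]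

/-- Expected number of states of the paths whose first object is an edge. -/
noncomputable def NE (σ : Finset α → Lab) (D : Finset α) : ℝ :=
  ∑ U ∈ D.powerset, if σ U = Lab.B then (U.card : ℝ) * fwb σ U / (D.card.choose U.card : ℝ) else 0

/-- Expected number of states of the paths whose first object is a vertex. -/
noncomputable def NV (σ : Finset α → Lab) (D : Finset α) : ℝ :=
  ∑ U ∈ D.powerset, if σ U = Lab.X then (U.card : ℝ) * fwb σ U / (D.card.choose U.card : ℝ) else 0

/-- Expected position of the first object, with its own slot (natural weights), below `V`. -/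
noncomputable def AN (σ : Finset α → Lab) (D V : Finset α) : ℝ :=
  A1 σ (fun U => (U.card : ℝ) / D.card) V

/-- The slack of the cut vertices. -/
noncomputable def SL (σ : Finset α → Lab) (D : Finset α) : ℝ :=
  ∑ V ∈ D.powerset, if σ V = Lab.X then
      bwb σ D V / (D.card.choose V.card : ℝ) *
      ((1 - (V.card : ℝ) / D.card) * ((V.card : ℝ) + (V.card : ℝ) / D.card - AN σ D V) *
        AN σ D V / (((V.card : ℝ) + 1) * ((V.card : ℝ) + (V.card : ℝ) / D.card))) else 0

theorem NE_eq (σ : Finset α → Lab) (D : Finset α) : NE σ D = AW (bwt σ) D := by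
  unfold NE AW bwt
  refine sum_congr rfl fun U _ => ?_
  split_ifs <;> simp

theorem NV_eq (σ : Finset α → Lab) (D : Finset α) : NV σ D = AW (xw σ) D := by
  unfold NV AW xw
  refine sum_congr rfl fun U _ => ?_
  split_ifs <;> simp

/-- the suffix factor -/
noncomputable def bb (σ : Finset α → Lab) (D V : Finset α) : Option α → ℝ
  | none => bwb σ D V
  | some x => bw σ D (insert x V)

/-- the reference masses -/
noncomputable def uu1 (σ : Finset α → Lab) (D V : Finset α) (o : Option α) : ℝ :=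
  if bb σ D V o = 0 then 1 else bb σ D V o * uu D V o

theorem bb_nonneg (σ : Finset α → Lab) (D V : Finset α) (o : Option α) : 0 ≤ bb σ D V o := by
  cases o with
  | none => exact bwb_nonneg _ _ _
  | some x => exact bw_nonneg _ _ _

theorem uu1_pos (σ : Finset α → Lab) {D V : Finset α} (hD : D.Nonempty) (hV : V ⊆ D)
    {o : Option α} (ho : ∀ x, o = some x → x ∈ D \ V) : 0 < uu1 σ D V o := by
  unfold uu1
  split_ifs with h
  · exact one_pos
  · exact mul_pos (lt_of_le_of_ne (bb_nonneg _ _ _ _) (Ne.symm h)) (uu_pos hD hV ho)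

theorem uu1_of_ne {σ : Finset α → Lab} {D V : Finset α} {o : Option α}
    (h : bb σ D V o ≠ 0) : uu1 σ D V o = bb σ D V o * uu D V o := by
  unfold uu1; rw [if_neg h]

theorem yy_of_zero {σ : Finset α → Lab} {D V : Finset α} {o : Option α}
    (h : bb σ D V o = 0) : yy σ D V o = 0 := by
  cases o with
  | none =>
    have h' : bwb σ D V = 0 := h
    simp only [yy, yLv]; rw [h']; simp
  | some x =>
    have h' : bw σ D (insert x V) = 0 := h
    simp only [yy, yLe]; rw [h']; simp

theorem ee_of_zero {σ : Finset α → Lab} {D V : Finset α} {o : Option α}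
    (h : bb σ D V o = 0) : ee σ D V o = 0 := by
  cases o with
  | none =>
    have h' : bwb σ D V = 0 := h
    simp only [ee]; rw [h']; simp
  | some x =>
    have h' : bw σ D (insert x V) = 0 := h
    simp only [ee]; rw [h']; simp

theorem LS_sq1 (σ : Finset α → Lab) (D : Finset α) (hD : D.Nonempty) (hA : σ ∅ = Lab.A) :
    LS D (fun V o => (yy σ D V o + ee σ D V o / (D.card : ℝ)) ^ 2 / uu1 σ D V o) ≤
      LQ σ D / ((D.card : ℝ) + 1) := by
  have hl0 : (0 : ℝ) < (D.card : ℝ) := by exact_mod_cast card_pos.2 hD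
  have hl : (0 : ℝ) < (D.card : ℝ) + 1 := by positivity
  unfold LS LQ
  rw [add_div, sum_div, sum_div]
  apply add_le_add
  · refine sum_le_sum fun V hV => ?_
    rw [sum_div]
    refine sum_le_sum fun x hx => ?_
    rw [mem_powerset] at hV
    rw [mem_sdiff] at hx
    have hlt : V.card < D.card := card_lt_card ⟨hV, fun h => hx.2 (h hx.1)⟩
    have hd : (0 : ℝ) < (D.card : ℝ) - V.card := by rw [sub_pos]; exact_mod_cast hlt
    have hC := choose_pos_real hlt.le
    have hk : (0 : ℝ) < (V.card : ℝ) + 1 := by positivity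
    beta_reduce
    by_cases hb0 : bb σ D V (some x) = 0
    · rw [yy_of_zero hb0, ee_of_zero hb0]
      simp only [zero_div, add_zero, ne_eq, OfNat.ofNat_ne_zero, not_false_eq_true, zero_pow]
      have hb1 := bw_nonneg σ D (insert x V)
      split_ifs
      · positivity
      · simp
    rw [uu1_of_ne hb0]
    simp only [yy, ee, bb, uu, yLe]
    by_cases hE : isE σ V x
    · simp only [if_pos hE]
      have hb0' : bw σ D (insert x V) ≠ 0 := hb0
      set b := bw σ D (insert x V) with hb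
      set a := A1 σ (fun U => (U.card : ℝ) / D.card) V with ha
      have ha' : aw σ V = a - AW (xw σ) V / D.card := by rw [ha, A1_eq]; ring
      rw [ha']
      · have e1 : ((a - AW (xw σ) V / D.card) * b /
            (((D.card : ℝ) + 1) * (D.card.choose V.card : ℝ) * ((D.card : ℝ) - V.card)) +
            AW (xw σ) V * b / (((D.card : ℝ) + 1) * (D.card.choose V.card : ℝ) *
              ((D.card : ℝ) - V.card)) / D.card) ^ 2 /
            (b * (((V.card : ℝ) + 1) / (((D.card : ℝ) + 1) * (D.card.choose V.card : ℝ) *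
              ((D.card : ℝ) - V.card)))) =
            1 / ((D.card.choose V.card : ℝ) * ((D.card : ℝ) - V.card)) *
            (b * a ^ 2 / ((V.card : ℝ) + 1)) / ((D.card : ℝ) + 1) := by
          field_simp
          ring
        exact e1.le
    · simp only [if_neg hE]
      simp
  · refine sum_le_sum fun V hV => ?_
    rw [mem_powerset] at hV
    beta_reduce
    by_cases hb0 : bb σ D V none = 0
    · rw [yy_of_zero hb0, ee_of_zero hb0]
      simp only [zero_div, add_zero, ne_eq, OfNat.ofNat_ne_zero, not_false_eq_true, zero_pow]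
      have hb1 := bwb_nonneg σ D V
      split_ifs
      · positivity
      · simp
    rw [uu1_of_ne hb0]
    simp only [yy, ee, bb, uu, yLv]
    by_cases hE : σ V = Lab.X
    · simp only [if_pos hE]
      have hVne : V ≠ ∅ := by
        rintro rfl
        rw [hA] at hE
        exact absurd hE (by simp)
      have hk0 : V.card ≠ 0 := by rwa [Ne, card_eq_zero]
      rw [if_neg hk0]
      have hk : (0 : ℝ) < (V.card : ℝ) := by
        rw [Nat.cast_pos]; exact Nat.pos_of_ne_zero hk0
      have hC := choose_pos_real (card_le_card hV)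
      have hb0' : bwb σ D V ≠ 0 := hb0
      set b := bwb σ D V with hb
      set a := A1 σ (fun U => (U.card : ℝ) / D.card) V with ha
      have ha' : aw σ V = a - AW (xw σ) V / D.card := by rw [ha, A1_eq]; ring
      rw [ha']
      · have e1 : ((a - AW (xw σ) V / D.card) * b /
            (((D.card : ℝ) + 1) * (D.card.choose V.card : ℝ)) +
            AW (xw σ) V * b / (((D.card : ℝ) + 1) * (D.card.choose V.card : ℝ)) / D.card) ^ 2 /
            (b * ((V.card : ℝ) / D.card / (D.card.choose V.card : ℝ))) =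
            1 / (D.card.choose V.card : ℝ) *
            (b * a ^ 2 / ((V.card : ℝ) + (V.card : ℝ) / D.card)) / ((D.card : ℝ) + 1) := by
          field_simp
          ring
        exact e1.le
    · simp only [if_neg hE]
      simp

/-- the entropy term as a sum over the objects -/
theorem CL1_eq (σ : Finset α → Lab) (D : Finset α) (z : ℝ) (hD : D.Nonempty)
    (hA : σ ∅ = Lab.A) (hz : 0 < z) :
    CL1 σ D z = LS D (fun V o => yy σ D V o * Real.log (yy σ D V o / (uu1 σ D V o * z))) := by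
  have hl0 : (0 : ℝ) < (D.card : ℝ) := by exact_mod_cast card_pos.2 hD
  have hl : (0 : ℝ) < (D.card : ℝ) + 1 := by positivity
  unfold CL1 LS
  congr 1
  · refine sum_congr rfl fun V hV => sum_congr rfl fun x hx => ?_
    rw [mem_powerset] at hV
    rw [mem_sdiff] at hx
    have hlt : V.card < D.card := card_lt_card ⟨hV, fun h => hx.2 (h hx.1)⟩
    have hd : (0 : ℝ) < (D.card : ℝ) - V.card := by rw [sub_pos]; exact_mod_cast hlt
    have hC := choose_pos_real hlt.le
    beta_reduce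
    by_cases hb0 : bb σ D V (some x) = 0
    · have h1 : yLe σ D V x = 0 := yy_of_zero hb0
      rw [yy_of_zero hb0, h1]; simp
    rw [uu1_of_ne hb0]
    have hb0' : bw σ D (insert x V) ≠ 0 := hb0
    simp only [yy, bb, uu, yLe]
    split_ifs with hE
    · congr 2
      field_simp
    · simp
  · refine sum_congr rfl fun V hV => ?_
    rw [mem_powerset] at hV
    beta_reduce
    by_cases hb0 : bb σ D V none = 0
    · have h1 : yLv σ D V = 0 := yy_of_zero hb0
      rw [yy_of_zero hb0, h1]; simp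
    rw [uu1_of_ne hb0]
    have hb0' : bwb σ D V ≠ 0 := hb0
    simp only [yy, bb, uu, yLv]
    by_cases hE : σ V = Lab.X
    · simp only [if_pos hE]
      have hVne : V ≠ ∅ := by
        rintro rfl
        rw [hA] at hE
        exact absurd hE (by simp)
      have hk0 : V.card ≠ 0 := by rwa [Ne, card_eq_zero]
      rw [if_neg hk0]
      have hk : (0 : ℝ) < (V.card : ℝ) := by
        rw [Nat.cast_pos]; exact Nat.pos_of_ne_zero hk0
      have hC := choose_pos_real (card_le_card hV)
      congr 2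
      field_simp
    · simp only [if_neg hE]
      simp

theorem AN_nonneg (σ : Finset α → Lab) (D V : Finset α) : 0 ≤ AN σ D V := A1_nonneg σ D V

open QP in
theorem AN_le {τ : Finset α → Lab} {D V : Finset α} (hA : τ ∅ = Lab.A) (hD : D.Nonempty)
    (hV : V ⊆ D) (hX : τ V = Lab.X) : AN τ D V ≤ (V.card : ℝ) + (V.card : ℝ) / D.card := by
  have hl0 : (0 : ℝ) < (D.card : ℝ) := by exact_mod_cast card_pos.2 hD
  set π : Finset α → ℝ := fun U => ((U ∩ D).card : ℝ) / D.card with hπd
  have hp0 : ∀ V, 0 ≤ π V := fun V => by positivity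
  have hp1 : ∀ V, π V ≤ 1 := fun V => by
    rw [hπd]; simp only
    rw [div_le_one hl0]
    exact_mod_cast card_le_card inter_subset_right
  have hA1 : AN τ D V = A1 τ π V := A1_congr_pi τ fun U hU => by
    rw [hπd]; simp only; rw [inter_eq_left.2 (hU.trans hV)]
  have h1 := YF_nonneg hA hp0 hp1 V
  rw [YF_ne π hA (by rw [hX]; decide)] at h1
  have h2 : aL τ π V = (V.card : ℝ) + (V.card : ℝ) / D.card := by
    unfold aL; rw [hX, hπd]; simp only [if_true]; rw [inter_eq_left.2 hV]
  rw [h2] at h1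
  rw [hA1]
  linarith

theorem SL_nonneg {τ : Finset α → Lab} {D : Finset α} (hA : τ ∅ = Lab.A) (hD : D.Nonempty) :
    0 ≤ SL τ D := by
  have hl0 : (0 : ℝ) < (D.card : ℝ) := by exact_mod_cast card_pos.2 hD
  unfold SL
  refine sum_nonneg fun V hV => ?_
  have hVD := mem_powerset.1 hV
  split_ifs with hX
  · have h1 := AN_le hA hD hVD hX
    have h2 := AN_nonneg τ D V
    have h3 : (V.card : ℝ) / D.card ≤ 1 := by
      rw [div_le_one hl0]; exact_mod_cast card_le_card hVD
    have h4 := bwb_nonneg τ D V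
    refine mul_nonneg (div_nonneg h4 (Nat.cast_nonneg _)) (div_nonneg ?_ (by positivity))
    exact mul_nonneg (mul_nonneg (by linarith) (by linarith)) h2
  · exact le_rfl

/-- **The bound for `COST1`.** -/
theorem cost1_bound (τ : Finset α → Lab) (D : Finset α) (hA : τ ∅ = Lab.A) (hB : τ D = Lab.B)
    (hD : D.Nonempty) :
    ((D.card : ℝ) + 1) * COST1 τ D ≤ (NE τ D + NE (dual τ D) D) / (D.card : ℝ) ^ 2 -
      (D.card : ℝ) / ((D.card : ℝ) + 1) * SL τ D ∧
    ((D.card : ℝ) + 1) * COST1 τ D ≤ (NV τ D + NV (dual τ D) D) / (D.card : ℝ) ^ 2 -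
      (D.card : ℝ) / ((D.card : ℝ) + 1) * SL τ D := by
  have hW : Stmt_AWID α := stmt_AWID α
  have hG : Stmt_GMASS α := stmt_GMASS
  have hl0 : (0 : ℝ) < (D.card : ℝ) := by exact_mod_cast card_pos.2 hD
  have hl : (0 : ℝ) < (D.card : ℝ) + 1 := by positivity
  have hA' : (dual τ D) ∅ = Lab.A := by
    unfold dual; rw [sdiff_empty, hB]; rfl
  have hB' : (dual τ D) D = Lab.B := by
    unfold dual; rw [sdiff_self, bot_eq_empty, hA]; rfl
  have hsA : ∀ b, sg τ D b ∅ = Lab.A := by
    intro b; cases b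
    · exact hA'
    · exact hA
  let Y : Bool → Finset α → Option α → ℝ := fun b => yy (sg τ D b) D
  let E : Bool → Finset α → Option α → ℝ := fun b => ee (sg τ D b) D
  let UU : Bool → Finset α → Option α → ℝ := fun b => uu1 (sg τ D b) D
  have hZ : ∑ p ∈ KK D, Y p.1 p.2.1 p.2.2 = Zt τ D := by
    rw [sum_KK D Y]
    show LS D (yy τ D) + LS D (yy (dual τ D) D) = _
    rw [LS_yy' hG hA hB, LS_yy' hG hA' hB', aw_dual (Subset.refl _), sdiff_self, bot_eq_empty]
    unfold Zt
    ring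
  have hZpos : 0 < Zt τ D := by
    unfold Zt
    have h1 := one_le_aw hA D
    have h2 := ab_nonneg τ D ∅
    positivity
  have hEs : ∑ p ∈ KK D, E p.1 p.2.1 p.2.2 =
      (NV τ D + NV (dual τ D) D) / ((D.card : ℝ) + 1) := by
    rw [sum_KK D E]
    show LS D (ee τ D) + LS D (ee (dual τ D) D) = _
    rw [LS_ee, LS_ee, LM_xw hG hA hB, LM_xw hG hA' hB', NV_eq, NV_eq]
    ring
  have hYE : Zt τ D - (NV τ D + NV (dual τ D) D) / ((D.card : ℝ) + 1) =
      (NE τ D + NE (dual τ D) D) / ((D.card : ℝ) + 1) := by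
    rw [← hZ, ← hEs, sum_KK D Y, sum_KK D E]
    show LS D (yy τ D) + LS D (yy (dual τ D) D) - (LS D (ee τ D) + LS D (ee (dual τ D) D)) = _
    have h1 := LS_ye hW hG hA hB
    have h2 := LS_ye hW hG hA' hB'
    rw [UEL_eq] at h1 h2
    rw [NE_eq, NE_eq, add_div, ← h1, ← h2]
    ring
  set S := A1 τ (fun U => (U.card : ℝ) / D.card) D +
        B1 τ D (fun U => (U.card : ℝ) / D.card) ∅ with hSd
  have hsum : ∑ p ∈ KK D, (Y p.1 p.2.1 p.2.2 + E p.1 p.2.1 p.2.2 / ((D.card : ℕ) : ℝ)) =
      S / ((D.card : ℝ) + 1) := by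
    rw [sum_KK D (fun b V o => Y b V o + E b V o / ((D.card : ℕ) : ℝ)), LS_add, LS_add,
      LS_div, LS_div]
    show LS D (yy τ D) + LS D (ee τ D) / (D.card : ℝ) +
      (LS D (yy (dual τ D) D) + LS D (ee (dual τ D) D) / (D.card : ℝ)) = _
    rw [LS_q hG hA hB, LS_q hG hA' hB', hSd, B1_eq τ hD, sdiff_empty]
    ring
  have hπ : ∀ U ⊆ D, 0 ≤ (U.card : ℝ) / D.card ∧ (U.card : ℝ) / D.card ≤ 1 := fun U hU =>
    ⟨by positivity, by rw [div_le_one hl0]; exact_mod_cast card_le_card hU⟩
  have hquad : ∑ p ∈ KK D, (Y p.1 p.2.1 p.2.2 + E p.1 p.2.1 p.2.2 / ((D.card : ℕ) : ℝ)) ^ 2 /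
      UU p.1 p.2.1 p.2.2 + SL τ D / ((D.card : ℝ) + 1) ≤
      (∑ p ∈ KK D, (Y p.1 p.2.1 p.2.2 + E p.1 p.2.1 p.2.2 / ((D.card : ℕ) : ℝ))) ^ 2 := by
    rw [hsum, sum_KK D (fun b V o => (Y b V o + E b V o / ((D.card : ℕ) : ℝ)) ^ 2 / UU b V o)]
    have h1 := LS_sq1 τ D hD hA
    have h2 := LS_sq1 (dual τ D) D hD hA'
    have h3 := qpi_slack τ D (fun U => (U.card : ℝ) / D.card) hA hB hπ
    rw [qpi_split τ D hD] at h3
    have h4 : LS D (fun V o => (Y true V o + E true V o / ((D.card : ℕ) : ℝ)) ^ 2 / UU true V o) +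
        LS D (fun V o => (Y false V o + E false V o / ((D.card : ℕ) : ℝ)) ^ 2 / UU false V o) ≤
        LQ τ D / ((D.card : ℝ) + 1) + LQ (dual τ D) D / ((D.card : ℝ) + 1) :=
      add_le_add h1 h2
    have h5 : LQ τ D + LQ (dual τ D) D + SL τ D ≤ S ^ 2 / ((D.card : ℝ) + 1) := h3
    calc _ ≤ LQ τ D / ((D.card : ℝ) + 1) + LQ (dual τ D) D / ((D.card : ℝ) + 1) +
          SL τ D / ((D.card : ℝ) + 1) := by linarith
      _ = (LQ τ D + LQ (dual τ D) D + SL τ D) / ((D.card : ℝ) + 1) := by ring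
      _ ≤ (S ^ 2 / ((D.card : ℝ) + 1)) / ((D.card : ℝ) + 1) := div_le_div_of_nonneg_right h5 hl.le
      _ = _ := by rw [div_pow]; field_simp
  have hye : ∀ k ∈ KK D, 0 ≤ E k.1 k.2.1 k.2.2 ∧ E k.1 k.2.1 k.2.2 ≤ Y k.1 k.2.1 k.2.2 := by
    rintro ⟨b, V, o⟩ hp
    obtain ⟨hV, _⟩ := mem_KK hp
    exact ee_bd hW _ (hsA b) hV o
  have hu : ∀ k ∈ KK D, 0 < UU k.1 k.2.1 k.2.2 := by
    rintro ⟨b, V, o⟩ hp
    obtain ⟨hV, ho⟩ := mem_KK hp
    exact uu1_pos _ hD hV ho
  have key := abs_slack (KK D)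
    (fun p => Y p.1 p.2.1 p.2.2) (fun p => E p.1 p.2.1 p.2.2) (fun p => UU p.1 p.2.1 p.2.2)
    D.card (SL τ D / ((D.card : ℝ) + 1)) (card_pos.2 hD) hye hu
    (by rw [hZ]; exact hZpos) hquad
  have hL : ∑ p ∈ KK D, Y p.1 p.2.1 p.2.2 * Real.log (Y p.1 p.2.1 p.2.2 /
      (UU p.1 p.2.1 p.2.2 * Zt τ D)) = COST1 τ D := by
    rw [sum_KK D (fun b V o => Y b V o * Real.log (Y b V o / (UU b V o * Zt τ D)))]
    unfold COST1
    rw [CL1_eq τ D _ hD hA hZpos, CL1_eq (dual τ D) D _ hD hA' hZpos]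
    rfl
  have hQ : Zt τ D + (∑ p ∈ KK D, E p.1 p.2.1 p.2.2) / (D.card : ℝ) = S / ((D.card : ℝ) + 1) := by
    rw [← hsum, ← hZ, sum_add_distrib, sum_div]
  rw [hZ, hL, hQ, hEs, hYE] at key
  -- the slack term
  have hS1 : S ≤ (D.card : ℝ) + 1 := S_le τ D _ hA hB hπ
  have hEle : ∑ p ∈ KK D, E p.1 p.2.1 p.2.2 ≤ Zt τ D := by
    rw [← hZ]; exact sum_le_sum fun k hk => (hye k hk).2
  have hE0 : 0 ≤ ∑ p ∈ KK D, E p.1 p.2.1 p.2.2 := sum_nonneg fun k hk => (hye k hk).1
  have hSpos : 0 < S := by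
    have h1 : 0 < S / ((D.card : ℝ) + 1) := by rw [← hQ]; positivity
    have h2 := mul_pos h1 hl
    rwa [div_mul_cancel₀ _ hl.ne'] at h2
  have hZS : S * (D.card : ℝ) ≤ Zt τ D * ((D.card : ℝ) + 1) ^ 2 := by
    have h1 : S / ((D.card : ℝ) + 1) ≤ Zt τ D + Zt τ D / (D.card : ℝ) := by
      rw [← hQ]
      have := div_le_div_of_nonneg_right hEle hl0.le
      linarith
    have h2 : Zt τ D + Zt τ D / (D.card : ℝ) = Zt τ D * ((D.card : ℝ) + 1) / (D.card : ℝ) := by
      field_simp
    rw [h2, div_le_div_iff₀ hl hl0] at h1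
    calc S * (D.card : ℝ) ≤ _ := h1
      _ = _ := by ring
  have hsl := SL_nonneg (τ := τ) hA hD
  have hfin : (D.card : ℝ) / ((D.card : ℝ) + 1) * SL τ D ≤
      ((D.card : ℝ) + 1) * (Zt τ D * (SL τ D / ((D.card : ℝ) + 1)) /
        (S / ((D.card : ℝ) + 1)) ^ 2) := by
    have e1 : ((D.card : ℝ) + 1) * (Zt τ D * (SL τ D / ((D.card : ℝ) + 1)) /
        (S / ((D.card : ℝ) + 1)) ^ 2) = Zt τ D * ((D.card : ℝ) + 1) ^ 2 / S ^ 2 * SL τ D := by
      field_simp
    rw [e1]
    refine mul_le_mul_of_nonneg_right ?_ hsl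
    rw [div_le_div_iff₀ hl (by positivity)]
    have h3 : (D.card : ℝ) * S ^ 2 ≤ Zt τ D * ((D.card : ℝ) + 1) ^ 2 * S := by
      have := mul_le_mul_of_nonneg_right hZS hSpos.le
      nlinarith
    refine h3.trans ?_
    refine mul_le_mul_of_nonneg_left hS1 ?_
    positivity
  obtain ⟨k1, k2⟩ := key
  have k1' := mul_le_mul_of_nonneg_left k1 hl.le
  have k2' := mul_le_mul_of_nonneg_left k2 hl.le
  have e2 : ∀ t u v : ℝ, ((D.card : ℝ) + 1) * (t / ((D.card : ℝ) + 1) / (D.card : ℝ) ^ 2 - u) =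
      t / (D.card : ℝ) ^ 2 - ((D.card : ℝ) + 1) * u := by
    intro t u v
    rw [mul_sub]
    congr 1
    field_simp
  rw [e2 _ _ 0] at k1' k2'
  constructor <;> linarith

end C1

end R5
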