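import Pool.Agent.Work.MP_8b6acb_cost_helper3.COST1
import Pool.Agent.Work.MP_8b6acb_ti_helper76.CostPath

/-!
# The bound for `COST1` in path form
-/

namespace R5

namespace C1

open Finset T7 Two

variable {α : Type} [DecidableEq α]

theorem NE_NL (τ : Finset α → Lab) (D : Finset α) : NE τ D = NL τ D Lab.B := rfl

theorem NV_NL (τ : Finset α → Lab) (D : Finset α) : NV τ D = NL τ D Lab.X := rfl

/-- `CostV` of helper76. -/
theorem costV {τ : Finset α → Lab} {D : Finset α} (h0 : τ ∅ = Lab.A) (hD : τ D = Lab.B) :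
    CostV τ D := by
  have hne : D.Nonempty := by
    by_contra h
    rw [not_nonempty_iff_eq_empty] at h
    subst h
    rw [h0] at hD
    exact absurd hD (by decide)
  have h1 := (cost1_bound τ D h0 hD hne).2
  have h2 := SL_nonneg (τ := τ) h0 hne
  refine costV_of h0 hD ?_
  rw [← NV_NL, ← NV_NL]
  have h3 : 0 ≤ (D.card : ℝ) / ((D.card : ℝ) + 1) * SL τ D := by positivity
  linarith

/-- The bound with the vertex exits, with slack, in path form. -/
theorem cost1_V {τ : Finset α → Lab} {D : Finset α} (h0 : τ ∅ = Lab.A) (hD : τ D = Lab.B) :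
    ((D.card : ℝ) + 1) * COST1 τ D ≤ Av D (fun π =>
      (((kA τ π : ℝ) + 1) * (1 - iE τ π (kA τ π)) + ((D.card : ℝ) - kN τ π) * lx τ π) /
        (D.card : ℝ) ^ 2) - (D.card : ℝ) / ((D.card : ℝ) + 1) * SL τ D := by
  have hne : D.Nonempty := by
    by_contra h
    rw [not_nonempty_iff_eq_empty] at h
    subst h
    rw [h0] at hD
    exact absurd hD (by decide)
  have h1 := (cost1_bound τ D h0 hD hne).2
  rw [NV_NL, NV_NL, NV_path h0 hD, NV_dual_path h0 hD, ← Av_add, ← Av_div] at h1
  exact h1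

/-- The bound with the edge exits, with slack, in path form. -/
theorem cost1_E {τ : Finset α → Lab} {D : Finset α} (h0 : τ ∅ = Lab.A) (hD : τ D = Lab.B) :
    ((D.card : ℝ) + 1) * COST1 τ D ≤ Av D (fun π =>
      (((kA τ π : ℝ) + 1) * iE τ π (kA τ π) + ((D.card : ℝ) - kN τ π) * (1 - lx τ π)) /
        (D.card : ℝ) ^ 2) - (D.card : ℝ) / ((D.card : ℝ) + 1) * SL τ D := by
  have hne : D.Nonempty := by
    by_contra h
    rw [not_nonempty_iff_eq_empty] at h
    subst h
    rw [h0] at hD
    exact absurd hD (by decide)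
  have h1 := (cost1_bound τ D h0 hD hne).1
  rw [NE_NL, NE_NL, NE_path h0 hD, NE_dual_path h0 hD, ← Av_add, ← Av_div] at h1
  exact h1

end C1

end R5
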