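import Pool.Agent.Work.MP_8b6acb_cap.QPI

/-!
# (Q^pi) with the slack of the cut vertices
-/

namespace R5.QP

open Finset

variable {α : Type} [DecidableEq α]

/-- The slack of a cut vertex. -/
noncomputable def slk (c : Finset α → Lab) (p : Finset α → ℝ) (V : Finset α) : ℝ :=
  if c V = Lab.X then
    (1 - p V) * YF c p V * (aL c p V - YF c p V) / (((V.card : ℝ) + 1) * aL c p V) else 0

lemma main_ineq_slack {c : Finset α → Lab} {p : Finset α → ℝ} (hc : c ∅ = Lab.A)
    (hp0 : ∀ V, 0 ≤ p V) (hp1 : ∀ V, p V ≤ 1) (U : Finset α) :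
    RF c p U - YF c p U ^ 2 / ((U.card : ℝ) + 1) + Lst c (slk c p) U ≤
      YF c p U - Lst c (fun V => YF c p V ^ 2 / aL c p V) U := by
  induction U using Finset.strongInduction with
  | H U ih =>
  cases hcU : c U with
  | A =>
    rw [Lst_ne _ (by rw [hcU]; decide), Lst_ne _ (by rw [hcU]; decide)]
    have h3 : slk c p U = 0 := by unfold slk; rw [hcU]; simp
    have h1 : RF c p U = YF c p U := by
      unfold RF YF
      refine Finset.sum_congr rfl fun W _ => ?_
      have : dF c p U W = bF c p U W := by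
        unfold dF; rw [bet_A p W hcU]; ring
      rw [this, sq, mul_self_div_self]
    have h2 : aL c p U = (U.card : ℝ) + 1 := by
      unfold aL; rw [hcU]; simp
    rw [h1, h2, h3, add_zero]
  | X =>
    rw [Lst_ne _ (by rw [hcU]; decide), Lst_ne _ (by rw [hcU]; decide)]
    have hUne : U.Nonempty := by
      by_contra hne
      rw [Finset.not_nonempty_iff_eq_empty] at hne
      subst hne
      rw [hc] at hcU; exact absurd hcU (by decide)
    have hm1 : (1 : ℝ) ≤ (U.card : ℝ) := by exact_mod_cast hUne.card_pos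
    set m : ℝ := (U.card : ℝ) with hmd
    set dl : ℝ := 1 - p U with hdl
    have hdl0 : 0 ≤ dl := by have := hp1 U; linarith
    have hdl1 : dl ≤ 1 := by have := hp0 U; linarith
    have haL : aL c p U = m + 1 - dl := by
      unfold aL; rw [hcU]; simp only [if_true]; rw [hdl, hmd]; ring
    have hd : ∀ W, dF c p U W = bF c p U W - dl := by
      intro W; unfold dF; rw [bet_X p W hcU]
    have hb : ∀ W ∈ U.powerset.filter (fun W => c W ≠ Lab.A),
        dl ≤ bF c p U W ∧ bF c p U W ≤ m + 1 ∧ (bF c p U W = 0 → dF c p U W = 0) := by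
      intro W hW
      have hWU := Finset.mem_powerset.1 (Finset.mem_filter.1 hW).1
      have hWA := (Finset.mem_filter.1 hW).2
      have hcard := Finset.card_le_card hWU
      refine ⟨?_, ?_, ?_⟩
      · by_cases hWe : W = U
        · subst hWe
          unfold bF aF
          rw [hcU]; simp [hdl]
        · have hlt : W.card < U.card :=
            Finset.card_lt_card ⟨hWU, fun h => hWe (Finset.Subset.antisymm hWU h)⟩
          have h1 : (W.card : ℝ) + 1 ≤ m := by rw [hmd]; exact_mod_cast hlt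
          unfold bF aF
          have h2 : (if c W = Lab.X then p W else 0) ≤ 1 := by
            split_ifs; exacts [hp1 W, zero_le_one]
          rw [← hmd]
          linarith
      · unfold bF aF
        have h2 : 0 ≤ (if c W = Lab.X then p W else 0) := by
          split_ifs; exacts [hp0 W, le_rfl]
        have h3 : (0 : ℝ) ≤ (W.card : ℝ) := by positivity
        rw [← hmd]
        linarith
      · intro hb0
        by_cases hWe : W = U
        · subst hWe; exact dF_self p hWA
        · exfalso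
          have hlt : W.card < U.card :=
            Finset.card_lt_card ⟨hWU, fun h => hWe (Finset.Subset.antisymm hWU h)⟩
          have h1 : (W.card : ℝ) + 1 ≤ m := by rw [hmd]; exact_mod_cast hlt
          unfold bF aF at hb0
          have h2 : (if c W = Lab.X then p W else 0) ≤ 1 := by
            split_ifs; exacts [hp1 W, zero_le_one]
          rw [← hmd] at hb0
          linarith
    have hY0 : 0 ≤ YF c p U := by
      unfold YF
      refine Finset.sum_nonneg fun W hW => mul_nonneg (P1_nonneg _ _ _) ?_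
      rw [hd W]; have := (hb W hW).1; linarith
    have hY1 : YF c p U ≤ m + 1 - dl := by
      have h1 : YF c p U ≤ ∑ W ∈ U.powerset with c W ≠ Lab.A, P1 c U W * (m + 1 - dl) := by
        unfold YF
        refine Finset.sum_le_sum fun W hW => mul_le_mul_of_nonneg_left ?_ (P1_nonneg _ _ _)
        rw [hd W]; have := (hb W hW).2.1; linarith
      rw [← Finset.sum_mul] at h1
      have h2 := P1_sum_le_one c hc U
      have h3 : 0 ≤ m + 1 - dl := by linarith
      nlinarith
    have hR : RF c p U ≤ YF c p U - dl * YF c p U / (m + 1) := by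
      have h1 : YF c p U - dl * YF c p U / (m + 1) =
          ∑ W ∈ U.powerset with c W ≠ Lab.A,
            P1 c U W * (dF c p U W - dl * dF c p U W / (m + 1)) := by
        have : ∀ W ∈ U.powerset.filter (fun W => c W ≠ Lab.A),
            P1 c U W * (dF c p U W - dl * dF c p U W / (m + 1)) =
            P1 c U W * dF c p U W - dl / (m + 1) * (P1 c U W * dF c p U W) := by
          intro W _; ring
        rw [Finset.sum_congr rfl this, Finset.sum_sub_distrib, ← Finset.mul_sum]
        unfold YF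
        ring
      rw [h1]
      unfold RF
      refine Finset.sum_le_sum fun W hW => mul_le_mul_of_nonneg_left ?_ (P1_nonneg _ _ _)
      obtain ⟨hb1, hb2, hb3⟩ := hb W hW
      by_cases hb0 : bF c p U W = 0
      · rw [hb3 hb0]; simp
      · have hbpos : 0 < bF c p U W := lt_of_le_of_ne (by linarith) (Ne.symm hb0)
        have hdnn : 0 ≤ dF c p U W := by rw [hd W]; linarith
        have e1 : dF c p U W ^ 2 / bF c p U W =
            dF c p U W - dl * dF c p U W / bF c p U W := by
          have : dF c p U W ^ 2 = dF c p U W * (bF c p U W - dl) := by rw [hd W]; ring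
          rw [this]
          field_simp
        rw [e1]
        have e2 : dl * dF c p U W / (m + 1) ≤ dl * dF c p U W / bF c p U W :=
          div_le_div_of_nonneg_left (mul_nonneg hdl0 hdnn) hbpos hb2
        linarith
    have hslk : slk c p U = dl * YF c p U * (m + 1 - dl - YF c p U) / ((m + 1) * (m + 1 - dl)) := by
      unfold slk; rw [if_pos hcU, haL]
    rw [hslk, haL]
    set Y := YF c p U with hYd
    have hpos1 : 0 < m + 1 := by linarith
    have hpos2 : 0 < m + 1 - dl := by linarith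
    have hk : Y ^ 2 / (m + 1 - dl) + dl * Y * (m + 1 - dl - Y) / ((m + 1) * (m + 1 - dl)) =
        (dl * Y + Y ^ 2) / (m + 1) := by
      field_simp
      ring
    have hk2 : (dl * Y + Y ^ 2) / (m + 1) = dl * Y / (m + 1) + Y ^ 2 / (m + 1) := by ring
    rw [hk2] at hk
    linarith
  | B =>
    rw [Lst_B _ hcU, Lst_B _ hcU]
    have hst := step_ineq (p := p) hc hp0 hp1 hcU
    have hUne : U.Nonempty := by
      by_contra hne
      rw [Finset.not_nonempty_iff_eq_empty] at hne
      subst hne
      rw [hc] at hcU; exact absurd hcU (by decide)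
    have hm : (0 : ℝ) < (U.card : ℝ) := by exact_mod_cast hUne.card_pos
    refine (add_le_add_left hst _).trans ?_
    rw [YF_B p hcU, ← sub_div, ← Finset.sum_sub_distrib, ← add_div, ← Finset.sum_add_distrib]
    refine div_le_div_of_nonneg_right (Finset.sum_le_sum fun x hx => ?_) hm.le
    have h1 := ih (U.erase x) (Finset.erase_ssubset hx)
    have h2 : ((U.erase x).card : ℝ) + 1 = (U.card : ℝ) := by
      rw [Finset.card_erase_of_mem hx, Nat.cast_sub hUne.card_pos]
      push_cast; ring
    rw [h2] at h1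
    exact h1

/-- **(Q^pi)** in exit form, with the slack of the cut vertices. -/
theorem qpi_exit_slack {τ : Finset α → Lab} {π : Finset α → ℝ} {D : Finset α} (h0 : τ ∅ = Lab.A)
    (hD : τ D = Lab.B) (hp0 : ∀ V, 0 ≤ π V) (hp1 : ∀ V, π V ≤ 1) :
    (∑ V ∈ D.powerset, if τ V = Lab.B then 0 else
      bwb τ D V / (D.card.choose V.card : ℝ) * (A1 τ π V ^ 2 / aL τ π V)) +
    (∑ W ∈ D.powerset with τ W ≠ Lab.A, P1 τ D W * (B1 τ D π W ^ 2 / bF τ π D W)) +
    (∑ V ∈ D.powerset, if τ V = Lab.B then 0 else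
      bwb τ D V / (D.card.choose V.card : ℝ) * slk τ π V) ≤
      (A1 τ π D + B1 τ D π ∅) ^ 2 / ((D.card : ℝ) + 1) := by
  have hmain := main_ineq_slack (p := π) h0 hp0 hp1 D
  rw [← Lst_explicit h0 hD, ← Lst_explicit h0 hD]
  rw [Lst_sq h0 hp0] at hmain
  have hbpos : ∀ W ∈ D.powerset.filter (fun W => τ W ≠ Lab.A), 0 < bF τ π D W := by
    intro W hW
    have hWD := mem_powerset.1 (mem_filter.1 hW).1
    unfold bF aF
    by_cases hWe : W = D
    · subst hWe; rw [hD]; simp
    · have hlt : W.card < D.card :=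
        card_lt_card ⟨hWD, fun h => hWe (Subset.antisymm hWD h)⟩
      have h1 : (W.card : ℝ) + 1 ≤ (D.card : ℝ) := by exact_mod_cast hlt
      have h2 : (if τ W = Lab.X then π W else 0) ≤ 1 := by
        split_ifs; exacts [hp1 W, zero_le_one]
      linarith
  have hbet : ∀ W ∈ D.powerset.filter (fun W => τ W ≠ Lab.A), bet τ π D W = B1 τ D π W :=
    fun W hW => bet_eq π hD (mem_powerset.1 (mem_filter.1 hW).1)
  have hR : RF τ π D = ((D.card : ℝ) + 1 - A1 τ π D) - 2 * B1 τ D π ∅ +
      ∑ W ∈ D.powerset with τ W ≠ Lab.A, P1 τ D W * (B1 τ D π W ^ 2 / bF τ π D W) := by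
    have e1 : ∀ W ∈ D.powerset.filter (fun W => τ W ≠ Lab.A),
        P1 τ D W * (dF τ π D W ^ 2 / bF τ π D W) =
        P1 τ D W * bF τ π D W - 2 * (P1 τ D W * B1 τ D π W) +
          P1 τ D W * (B1 τ D π W ^ 2 / bF τ π D W) := by
      intro W hW
      unfold dF
      rw [hbet W hW]
      have := hbpos W hW
      field_simp
      ring
    unfold RF
    rw [sum_congr rfl e1, sum_add_distrib, sum_sub_distrib, ← mul_sum, sum_bF π h0,
      sum_B1 π h0 hD]
  have hY : YF τ π D = (D.card : ℝ) + 1 - A1 τ π D - B1 τ D π ∅ := by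
    have e1 : ∀ W ∈ D.powerset.filter (fun W => τ W ≠ Lab.A),
        P1 τ D W * dF τ π D W = P1 τ D W * bF τ π D W - P1 τ D W * B1 τ D π W := by
      intro W hW
      unfold dF
      rw [hbet W hW]; ring
    unfold YF
    rw [sum_congr rfl e1, sum_sub_distrib, sum_bF π h0, sum_B1 π h0 hD]
  have hY2 := YF_eq π h0 D
  rw [hR] at hmain
  set M : ℝ := (D.card : ℝ) + 1 with hM
  have hMpos : 0 < M := by positivity
  set S := A1 τ π D + B1 τ D π ∅ with hS
  have hYS : YF τ π D = M - S := by rw [hY, hS]; ring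
  rw [hYS] at hmain hY2
  have hsq : (M - S) ^ 2 / M = S ^ 2 / M + M - 2 * S := by
    field_simp; ring
  rw [hsq] at hmain
  linarith

theorem bF_nonneg {c : Finset α → Lab} {π : Finset α → ℝ} (hp1 : ∀ V, π V ≤ 1)
    {U W : Finset α} (hWU : W ⊆ U) : 0 ≤ bF c π U W := by
  have hcard : (W.card : ℝ) ≤ (U.card : ℝ) := by exact_mod_cast card_le_card hWU
  unfold bF aF
  have h2 : (if c W = Lab.X then π W else 0) ≤ 1 := by
    split_ifs; exacts [hp1 W, zero_le_one]
  linarith

theorem YF_nonneg {c : Finset α → Lab} {π : Finset α → ℝ} (hc : c ∅ = Lab.A)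
    (hp0 : ∀ V, 0 ≤ π V) (hp1 : ∀ V, π V ≤ 1) (U : Finset α) : 0 ≤ YF c π U := by
  induction U using Finset.strongInduction with
  | H U ih =>
  cases hcU : c U with
  | A =>
    unfold YF
    refine sum_nonneg fun W hW => mul_nonneg (P1_nonneg _ _ _) ?_
    have hWU := mem_powerset.1 (mem_filter.1 hW).1
    unfold dF
    rw [bet_A π W hcU, sub_zero]
    exact bF_nonneg hp1 hWU
  | X =>
    unfold YF
    refine sum_nonneg fun W hW => mul_nonneg (P1_nonneg _ _ _) ?_
    have hWU := mem_powerset.1 (mem_filter.1 hW).1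
    have hWA := (mem_filter.1 hW).2
    by_cases hWe : W = U
    · subst hWe; exact (dF_self π hWA).ge
    · have hlt : W.card < U.card :=
        card_lt_card ⟨hWU, fun h => hWe (Subset.antisymm hWU h)⟩
      have h1 : (W.card : ℝ) + 1 ≤ (U.card : ℝ) := by exact_mod_cast hlt
      unfold dF
      rw [bet_X π W hcU]
      unfold bF aF
      have h2 : (if c W = Lab.X then π W else 0) ≤ 1 := by
        split_ifs; exacts [hp1 W, zero_le_one]
      have := hp0 U
      linarith
  | B =>
    rw [YF_B π hcU]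
    exact div_nonneg (sum_nonneg fun x hx => ih _ (erase_ssubset hx)) (Nat.cast_nonneg _)

theorem YF_top {τ : Finset α → Lab} {π : Finset α → ℝ} {D : Finset α} (h0 : τ ∅ = Lab.A)
    (hD : τ D = Lab.B) : YF τ π D = (D.card : ℝ) + 1 - A1 τ π D - B1 τ D π ∅ := by
  have hbet : ∀ W ∈ D.powerset.filter (fun W => τ W ≠ Lab.A), bet τ π D W = B1 τ D π W :=
    fun W hW => bet_eq π hD (mem_powerset.1 (mem_filter.1 hW).1)
  have e1 : ∀ W ∈ D.powerset.filter (fun W => τ W ≠ Lab.A),
      P1 τ D W * dF τ π D W = P1 τ D W * bF τ π D W - P1 τ D W * B1 τ D π W := by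
    intro W hW
    unfold dF
    rw [hbet W hW]; ring
  unfold YF
  rw [sum_congr rfl e1, sum_sub_distrib, sum_bF π h0, sum_B1 π h0 hD]

end R5.QP

namespace R5

open Finset

open QP in
theorem qpi_slack {α : Type} [DecidableEq α] (τ : Finset α → Lab) (D : Finset α)
    (π0 : Finset α → ℝ) (h0 : τ ∅ = Lab.A) (hD : τ D = Lab.B)
    (hπ : ∀ U ⊆ D, 0 ≤ π0 U ∧ π0 U ≤ 1) :
  (∑ V ∈ D.powerset, ∑ x ∈ D \ V, if isE τ V x then
      1 / ((D.card.choose V.card : ℝ) * ((D.card : ℝ) - V.card)) *
      (bw τ D (insert x V) * A1 τ π0 V ^ 2 / ((V.card : ℝ) + 1) +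
       fw τ V * B1 τ D π0 (insert x V) ^ 2 / ((D.card : ℝ) - V.card)) else 0) +
  (∑ V ∈ D.powerset, if τ V = Lab.X then
      1 / (D.card.choose V.card : ℝ) *
      (bwb τ D V * A1 τ π0 V ^ 2 / ((V.card : ℝ) + π0 V) +
       fwb τ V * B1 τ D π0 V ^ 2 / ((D.card : ℝ) - V.card + 1 - π0 V)) else 0) +
  (∑ V ∈ D.powerset, if τ V = Lab.X then
      bwb τ D V / (D.card.choose V.card : ℝ) *
      ((1 - π0 V) * ((V.card : ℝ) + π0 V - A1 τ π0 V) * A1 τ π0 V /
        (((V.card : ℝ) + 1) * ((V.card : ℝ) + π0 V))) else 0) ≤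
  (A1 τ π0 D + B1 τ D π0 ∅) ^ 2 / ((D.card : ℝ) + 1) := by
  -- replace `π0` by a globally bounded function
  set π : Finset α → ℝ := fun U => π0 (U ∩ D) with hπd
  have hp0 : ∀ V, 0 ≤ π V := fun V => (hπ _ inter_subset_right).1
  have hp1 : ∀ V, π V ≤ 1 := fun V => (hπ _ inter_subset_right).2
  have hpe : ∀ U ⊆ D, π0 U = π U := by
    intro U hU
    rw [hπd]; simp only; rw [inter_eq_left.2 hU]
  have hA1 : ∀ V ⊆ D, A1 τ π0 V = A1 τ π V := fun V hV =>
    A1_congr_pi τ fun U hU => hpe U (hU.trans hV)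
  have hB1 : ∀ V, B1 τ D π0 V = B1 τ D π V := by
    intro V
    unfold B1
    refine A1_congr_pi _ fun U _ => ?_
    rw [hpe _ sdiff_subset]
  have key := qpi_exit_slack (π := π) h0 hD hp0 hp1
  rw [hA1 D (Subset.refl _), hB1 ∅]
  have hslk : (∑ V ∈ D.powerset, if τ V = Lab.B then 0 else
      bwb τ D V / (D.card.choose V.card : ℝ) * slk τ π V) =
      ∑ V ∈ D.powerset, if τ V = Lab.X then
      bwb τ D V / (D.card.choose V.card : ℝ) *
      ((1 - π0 V) * ((V.card : ℝ) + π0 V - A1 τ π0 V) * A1 τ π0 V /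
        (((V.card : ℝ) + 1) * ((V.card : ℝ) + π0 V))) else 0 := by
    refine sum_congr rfl fun V hV => ?_
    have hVD := mem_powerset.1 hV
    cases hc : τ V with
    | A => simp [slk, hc]
    | B => simp
    | X =>
      have h1 : aL τ π V = (V.card : ℝ) + π0 V := by
        unfold aL; rw [hc, hpe V hVD]; simp
      have h2 : YF τ π V = (V.card : ℝ) + π0 V - A1 τ π0 V := by
        rw [YF_ne π h0 (by rw [hc]; decide), h1, hA1 V hVD]
      simp only [reduceCtorEq, if_false, if_true]
      unfold slk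
      rw [if_pos hc, h2, h1, ← hpe V hVD]
      congr 2
      ring
  rw [hslk] at key
  refine le_trans (le_of_eq ?_) key
  congr 1
  have e1 : (∑ V ∈ D.powerset, ∑ x ∈ D \ V, if isE τ V x then
      1 / ((D.card.choose V.card : ℝ) * ((D.card : ℝ) - V.card)) *
      (bw τ D (insert x V) * A1 τ π0 V ^ 2 / ((V.card : ℝ) + 1) +
       fw τ V * B1 τ D π0 (insert x V) ^ 2 / ((D.card : ℝ) - V.card)) else 0) =
      (∑ V ∈ D.powerset, if τ V = Lab.A then
        bwb τ D V / (D.card.choose V.card : ℝ) * (A1 τ π V ^ 2 / ((V.card : ℝ) + 1)) else 0) +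
      ∑ U ∈ D.powerset, if τ U = Lab.B then P1 τ D U * (B1 τ D π U ^ 2 / bF τ π D U) else 0 := by
    have e2 : (∑ V ∈ D.powerset, ∑ x ∈ D \ V, if isE τ V x then
      1 / ((D.card.choose V.card : ℝ) * ((D.card : ℝ) - V.card)) *
      (bw τ D (insert x V) * A1 τ π0 V ^ 2 / ((V.card : ℝ) + 1) +
       fw τ V * B1 τ D π0 (insert x V) ^ 2 / ((D.card : ℝ) - V.card)) else 0) =
      (∑ V ∈ D.powerset, ∑ x ∈ D \ V, if isE τ V x then
      1 / ((D.card.choose V.card : ℝ) * ((D.card : ℝ) - V.card)) *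
        (bw τ D (insert x V) * A1 τ π V ^ 2 / ((V.card : ℝ) + 1)) else 0) +
      ∑ V ∈ D.powerset, ∑ x ∈ D \ V, if isE τ V x then
      1 / ((D.card.choose V.card : ℝ) * ((D.card : ℝ) - V.card)) *
        (fw τ V * B1 τ D π (insert x V) ^ 2 / ((D.card : ℝ) - V.card)) else 0 := by
      rw [← sum_add_distrib]
      refine sum_congr rfl fun V hV => ?_
      rw [← sum_add_distrib]
      refine sum_congr rfl fun x _ => ?_
      split_ifs
      · rw [hA1 V (mem_powerset.1 hV), hB1]; ring
      · simp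
    rw [e2, sum_up_down D (fun V x => if isE τ V x then
      1 / ((D.card.choose V.card : ℝ) * ((D.card : ℝ) - V.card)) *
        (fw τ V * B1 τ D π (insert x V) ^ 2 / ((D.card : ℝ) - V.card)) else 0)]
    congr 1
    · refine sum_congr rfl fun V hV => qpi_edges_L π (mem_powerset.1 hV)
    · refine sum_congr rfl fun U hU => qpi_edges_F π (mem_powerset.1 hU)
  rw [e1, sum_filter, ← sum_add_distrib, ← sum_add_distrib, ← sum_add_distrib]
  refine sum_congr rfl fun V hV => ?_
  have hVD := mem_powerset.1 hV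
  cases hc : τ V with
  | A =>
    simp only [if_true, reduceCtorEq, if_false, not_true_eq_false, ne_eq, add_zero]
    unfold aL; rw [hc]; simp
  | B =>
    simp
  | X =>
    simp only [reduceCtorEq, if_false, if_true, ne_eq, not_false_eq_true]
    rw [hA1 V hVD, hB1, hpe V hVD]
    unfold aL P1 bF aF
    rw [hc]
    simp only [if_true]
    have e3 : (D.card : ℝ) + 1 - ((V.card : ℝ) + π V) = (D.card : ℝ) - V.card + 1 - π V := by
      ring
    rw [e3]
    ring

open QP in
theorem S_le {α : Type} [DecidableEq α] (τ : Finset α → Lab) (D : Finset α)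
    (π0 : Finset α → ℝ) (h0 : τ ∅ = Lab.A) (hD : τ D = Lab.B)
    (hπ : ∀ U ⊆ D, 0 ≤ π0 U ∧ π0 U ≤ 1) :
    A1 τ π0 D + B1 τ D π0 ∅ ≤ (D.card : ℝ) + 1 := by
  set π : Finset α → ℝ := fun U => π0 (U ∩ D) with hπd
  have hp0 : ∀ V, 0 ≤ π V := fun V => (hπ _ inter_subset_right).1
  have hp1 : ∀ V, π V ≤ 1 := fun V => (hπ _ inter_subset_right).2
  have hpe : ∀ U ⊆ D, π0 U = π U := by
    intro U hU
    rw [hπd]; simp only; rw [inter_eq_left.2 hU]
  have hA1 : A1 τ π0 D = A1 τ π D := A1_congr_pi τ fun U hU => hpe U hU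
  have hB1 : B1 τ D π0 ∅ = B1 τ D π ∅ := by
    unfold B1
    refine A1_congr_pi _ fun U _ => ?_
    rw [hpe _ sdiff_subset]
  have h1 := YF_top (π := π) h0 hD
  have h2 := YF_nonneg h0 hp0 hp1 D
  rw [hA1, hB1]
  linarith

end R5
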